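import Pool.Agent.R520.Dens

set_option autoImplicit false

/-!
# The derangement-to-permutation ratios of digraphs are dense in `[0, 1/2]`

Take `L` cyclically ordered layers, each a copy of a set of `k = 2m` points, with all arcs from each layer to the
next one, except that between the last layer and the first one only the arcs `x → x` and `t` arcs from the first
half to the second half are present. A permutation moves the same number `i` of points in every layer, and the
number of permutations with a given `i` is `(i!)^(L-1) * C(k,i)^(L-2) * m_i`, where `m_i` is the number of matchings
of size `i` of the last pair of layers. Here `m_k = 1` and `m_(k-1) = k + t`, so the number of permutations divided by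
the number of derangements tends to `2 + t/k` as `L → ∞`, and `t/k` may be any rational number `≥ 0`.
-/

namespace Pool.Agent.Results.MP_864c98_co.RatiosDense

open Pool.Agent.R520.Layer

/-- The set of the ratios `(d/p)_G` meets every open interval `(a, b)` with `0 ≤ a < b ≤ 1/2`. -/
theorem result (a b : ℝ) (ha : 0 ≤ a) (hab : a < b) (hb : b ≤ 1 / 2) : ∃ r ∈ ratios, a < r ∧ r < b :=
  dense_ratios a b ha hab hb

end Pool.Agent.Results.MP_864c98_co.RatiosDense
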